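import Mathlib

/-!
# Exponential sums of the Thue-Morse sequence
-/

namespace Pool.Agent.V1167.TM

/-- The Thue-Morse sequence of signs. -/
noncomputable def s : ℕ → ℂ
  | 0 => 1
  | (n + 1) => if (n + 1) % 2 = 0 then s ((n + 1) / 2) else -s ((n + 1) / 2)
decreasing_by all_goals omega

theorem s_zero : s 0 = 1 := by rw [s]

theorem s_two_mul (n : ℕ) : s (2 * n) = s n := by
  cases n with
  | zero => rfl
  | succ n =>
    rw [show 2 * (n + 1) = (2 * n + 1) + 1 by ring, s, if_pos (by omega)]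
    congr 1
    omega

theorem s_two_mul_add (n : ℕ) : s (2 * n + 1) = -s n := by
  rw [s, if_neg (by omega)]
  congr 2
  omega

theorem s_one : s 1 = -1 := by
  have := s_two_mul_add 0
  rwa [mul_zero, zero_add, s_zero] at this

theorem norm_s (n : ℕ) : ‖s n‖ = 1 := by
  induction n using Nat.strong_induction_on with
  | _ n ih =>
    rcases Nat.even_or_odd' n with ⟨m, rfl | rfl⟩
    · rcases Nat.eq_zero_or_pos m with rfl | hm
      · rw [mul_zero, s_zero, norm_one]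
      · rw [s_two_mul]
        exact ih m (by omega)
    · rw [s_two_mul_add, norm_neg]
      exact ih m (by omega)

theorem s_cases (n : ℕ) : s n = 1 ∨ s n = -1 := by
  induction n using Nat.strong_induction_on with
  | _ n ih =>
    rcases Nat.even_or_odd' n with ⟨m, rfl | rfl⟩
    · rcases Nat.eq_zero_or_pos m with rfl | hm
      · left
        rw [mul_zero, s_zero]
      · rw [s_two_mul]
        exact ih m (by omega)
    · rw [s_two_mul_add]
      rcases ih m (by omega) with h | h <;> rw [h]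
      · right; rfl
      · left; ring

theorem s_mul (k : ℕ) : ∀ j i, i < 2 ^ k → s (j * 2 ^ k + i) = s j * s i := by
  induction k with
  | zero =>
    intro j i hi
    have h0 : i = 0 := by omega
    rw [h0, pow_zero, mul_one, add_zero, s_zero, mul_one]
  | succ k ih =>
    intro j i hi
    rcases Nat.even_or_odd' i with ⟨m, rfl | rfl⟩
    · rw [show j * 2 ^ (k + 1) + 2 * m = 2 * (j * 2 ^ k + m) by ring, s_two_mul, s_two_mul]
      exact ih j m (by rw [pow_succ] at hi; omega)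
    · rw [show j * 2 ^ (k + 1) + (2 * m + 1) = 2 * (j * 2 ^ k + m) + 1 by ring, s_two_mul_add,
        s_two_mul_add, ih j m (by rw [pow_succ] at hi; omega), mul_neg]

theorem exists_one (i : ℕ) : s i = 1 ∨ s (i + 1) = 1 ∨ s (i + 2) = 1 := by
  rcases Nat.even_or_odd' i with ⟨m, rfl | rfl⟩
  · rw [s_two_mul, s_two_mul_add]
    rcases s_cases m with h | h
    · exact Or.inl h
    · right; left
      rw [h]; ring
  · have e1 : s (2 * m + 1 + 1) = s (m + 1) := s_two_mul (m + 1)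
    have e2 : s (2 * m + 1 + 2) = -s (m + 1) := s_two_mul_add (m + 1)
    rcases s_cases (m + 1) with h | h
    · exact Or.inr (Or.inl (by rw [e1, h]))
    · right; right
      rw [e2, h]; ring

/-- The exponential sums. -/
noncomputable def P (w : ℂ) (k : ℕ) : ℂ := ∑ i ∈ Finset.range (2 ^ k), w ^ i * s i

theorem shift_sum (w : ℂ) (k m : ℕ) (hm : m ≤ 2 ^ k) :
    ∑ i ∈ Finset.range (2 ^ k + m), w ^ i * s i =
      P w k - w ^ (2 ^ k) * ∑ i ∈ Finset.range m, w ^ i * s i := by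
  rw [Finset.sum_range_add, P, sub_eq_add_neg, Finset.mul_sum, ← Finset.sum_neg_distrib]
  congr 1
  refine Finset.sum_congr rfl fun i hi => ?_
  have h1 := s_mul k 1 i (lt_of_lt_of_le (Finset.mem_range.1 hi) hm)
  rw [one_mul, s_one] at h1
  rw [h1, pow_add]
  ring

theorem P_succ (w : ℂ) (k : ℕ) : P w (k + 1) = (1 - w ^ (2 ^ k)) * P w k := by
  have h := shift_sum w k (2 ^ k) le_rfl
  rw [← two_mul, ← pow_succ'] at h
  rw [P, h, P]
  ring

theorem circle_bound {z : ℂ} (hz : ‖z‖ = 1) : (‖1 - z‖ * ‖1 - z ^ 2‖) ^ 4 ≤ 100 := by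
  have h1 : ‖1 - z ^ 2‖ = ‖1 - z‖ * ‖1 + z‖ := by
    rw [← norm_mul]
    congr 1
    ring
  have h2 : ‖1 - z‖ ^ 2 + ‖1 + z‖ ^ 2 = 4 := by
    have h3 := parallelogram_law_with_norm ℝ (1 : ℂ) z
    rw [norm_one, hz] at h3
    nlinarith [h3]
  rw [h1]
  obtain ⟨u, hu⟩ : ∃ u : ℝ, u = ‖1 - z‖ ^ 2 := ⟨_, rfl⟩
  obtain ⟨v, hv⟩ : ∃ v : ℝ, v = ‖1 + z‖ ^ 2 := ⟨_, rfl⟩
  have hu0 : 0 ≤ u := by rw [hu]; positivity
  have hv0 : 0 ≤ v := by rw [hv]; positivity
  have h4 : (‖1 - z‖ * (‖1 - z‖ * ‖1 + z‖)) ^ 4 = (u ^ 2 * v) ^ 2 := by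
    rw [hu, hv]
    ring
  rw [h4]
  have h5 : v = 4 - u := by rw [hu, hv]; linarith
  have h6 : u ^ 2 * v ≤ 10 := by
    rw [h5]
    nlinarith [mul_nonneg (sq_nonneg (u - 8 / 3)) (by linarith : (0 : ℝ) ≤ u + 4 / 3)]
  have h7 : 0 ≤ u ^ 2 * v := by positivity
  nlinarith

theorem P_bound4 {w : ℂ} (hw : ‖w‖ = 1) (k : ℕ) : ‖P w k‖ ^ 4 ≤ 16 * 10 ^ k := by
  have key : ∀ k, ‖P w k‖ ^ 4 ≤ 16 * 10 ^ k ∧ ‖P w (k + 1)‖ ^ 4 ≤ 16 * 10 ^ (k + 1) := by
    intro k
    induction k with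
    | zero =>
      have h0 : P w 0 = 1 := by simp [P, s_zero]
      have h1 : ‖P w (0 + 1)‖ ≤ 2 := by
        rw [P_succ, h0, mul_one]
        calc ‖1 - w ^ 2 ^ 0‖ ≤ ‖(1 : ℂ)‖ + ‖w ^ 2 ^ 0‖ := norm_sub_le _ _
          _ = 2 := by rw [norm_pow, hw]; norm_num
      refine ⟨by rw [h0]; norm_num, ?_⟩
      calc ‖P w (0 + 1)‖ ^ 4 ≤ 2 ^ 4 := by gcongr
        _ ≤ 16 * 10 ^ (0 + 1) := by norm_num
    | succ k ih =>
      refine ⟨ih.2, ?_⟩
      rw [P_succ, P_succ]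
      have hz : ‖w ^ (2 ^ k)‖ = 1 := by rw [norm_pow, hw, one_pow]
      have h1 := circle_bound hz
      rw [← pow_mul, ← pow_succ] at h1
      have h2 : ‖(1 - w ^ 2 ^ (k + 1)) * ((1 - w ^ 2 ^ k) * P w k)‖ ^ 4 =
          (‖1 - w ^ 2 ^ k‖ * ‖1 - w ^ 2 ^ (k + 1)‖) ^ 4 * ‖P w k‖ ^ 4 := by
        rw [norm_mul, norm_mul]
        ring
      rw [h2]
      calc (‖1 - w ^ 2 ^ k‖ * ‖1 - w ^ 2 ^ (k + 1)‖) ^ 4 * ‖P w k‖ ^ 4
          ≤ 100 * (16 * 10 ^ k) := by
            gcongr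
            exact ih.1
        _ = 16 * 10 ^ (k + 1 + 1) := by ring
  exact (key k).1

theorem P_bound {w : ℂ} (hw : ‖w‖ = 1) (k : ℕ) : ‖P w k‖ ≤ 2 * (9 / 5) ^ k := by
  refine le_of_pow_le_pow_left₀ (n := 4) (by norm_num) (by positivity) ?_
  refine (P_bound4 hw k).trans ?_
  have h1 : ((2 : ℝ) * (9 / 5) ^ k) ^ 4 = 16 * ((9 / 5) ^ 4) ^ k := by
    rw [mul_pow, ← pow_mul, ← pow_mul, mul_comm k 4]
    norm_num
  rw [h1]
  gcongr
  norm_num

theorem partial_bound {w : ℂ} (hw : ‖w‖ = 1) (K : ℕ) : ∀ m ≤ 2 ^ K,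
    ‖∑ i ∈ Finset.range m, w ^ i * s i‖ ≤ 5 / 2 * (9 / 5) ^ K := by
  induction K with
  | zero =>
    intro m hm
    rw [pow_zero] at hm
    interval_cases m
    · simp
      norm_num
    · simp [s_zero]
      norm_num
  | succ K ih =>
    intro m hm
    have h0 : (0 : ℝ) ≤ (9 / 5) ^ K := by positivity
    rcases le_total m (2 ^ K) with h | h
    · refine (ih m h).trans ?_
      rw [pow_succ]
      linarith
    · obtain ⟨m', rfl⟩ := Nat.exists_eq_add_of_le h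
      have hm' : m' ≤ 2 ^ K := by rw [pow_succ] at hm; omega
      rw [shift_sum w K m' hm']
      have h1 := ih m' hm'
      have h2 := P_bound hw K
      calc ‖P w K - w ^ 2 ^ K * ∑ i ∈ Finset.range m', w ^ i * s i‖
          ≤ ‖P w K‖ + ‖w ^ 2 ^ K * ∑ i ∈ Finset.range m', w ^ i * s i‖ := norm_sub_le _ _
        _ = ‖P w K‖ + ‖∑ i ∈ Finset.range m', w ^ i * s i‖ := by
            rw [norm_mul, norm_pow, hw, one_pow, one_mul]
        _ ≤ 2 * (9 / 5) ^ K + 5 / 2 * (9 / 5) ^ K := by gcongr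
        _ = 5 / 2 * (9 / 5) ^ (K + 1) := by ring

theorem interval_bound {w : ℂ} (hw : ‖w‖ = 1) (K n : ℕ) :
    ‖∑ j ∈ Finset.range (2 ^ K), w ^ j * s (n + j)‖ ≤ 7 * (9 / 5) ^ K := by
  obtain ⟨a, b, hb, rfl⟩ : ∃ a b, b < 2 ^ K ∧ n = a * 2 ^ K + b :=
    ⟨n / 2 ^ K, n % 2 ^ K, Nat.mod_lt _ (by positivity), (Nat.div_add_mod' _ _).symm⟩
  have h1 : ∑ j ∈ Finset.range (2 ^ K), w ^ j * s (a * 2 ^ K + b + j) =
      s a * ∑ j ∈ Finset.range (2 ^ K - b), w ^ j * s (b + j) +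
      s (a + 1) * w ^ (2 ^ K - b) * ∑ j ∈ Finset.range b, w ^ j * s j := by
    have h2 : 2 ^ K = (2 ^ K - b) + b := by omega
    conv_lhs => rw [h2]
    rw [Finset.sum_range_add, Finset.mul_sum, Finset.mul_sum]
    congr 1
    · refine Finset.sum_congr rfl fun j hj => ?_
      have hj' := Finset.mem_range.1 hj
      rw [show a * (2 ^ K - b + b) + b + j = a * 2 ^ K + (b + j) by rw [← h2]; ring,
        s_mul K a (b + j) (by omega)]
      ring
    · refine Finset.sum_congr rfl fun j hj => ?_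
      have hj' := Finset.mem_range.1 hj
      have h3 : a * (2 ^ K - b + b) + b + (2 ^ K - b + j) = (a + 1) * 2 ^ K + j := by
        rw [← h2, add_mul, one_mul]
        omega
      rw [h3, s_mul K (a + 1) j (by omega), pow_add]
      ring
  rw [h1]
  have hw0 : w ≠ 0 := by
    intro h
    rw [h, norm_zero] at hw
    exact zero_ne_one hw
  have h4 : ‖∑ j ∈ Finset.range (2 ^ K - b), w ^ j * s (b + j)‖ ≤
      2 * (9 / 5) ^ K + 5 / 2 * (9 / 5) ^ K := by
    have h5 : w ^ b * ∑ j ∈ Finset.range (2 ^ K - b), w ^ j * s (b + j) =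
        P w K - ∑ i ∈ Finset.range b, w ^ i * s i := by
      have h6 : 2 ^ K = b + (2 ^ K - b) := by omega
      rw [P, h6, Finset.sum_range_add, ← h6, Finset.mul_sum, add_sub_cancel_left]
      refine Finset.sum_congr rfl fun j _ => ?_
      rw [pow_add]
      ring
    have h7 : ‖∑ j ∈ Finset.range (2 ^ K - b), w ^ j * s (b + j)‖ =
        ‖P w K - ∑ i ∈ Finset.range b, w ^ i * s i‖ := by
      rw [← h5, norm_mul, norm_pow, hw, one_pow, one_mul]
    rw [h7]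
    exact (norm_sub_le _ _).trans (add_le_add (P_bound hw K) (partial_bound hw K b hb.le))
  calc _ ≤ ‖s a * ∑ j ∈ Finset.range (2 ^ K - b), w ^ j * s (b + j)‖ +
        ‖s (a + 1) * w ^ (2 ^ K - b) * ∑ j ∈ Finset.range b, w ^ j * s j‖ := norm_add_le _ _
    _ = ‖∑ j ∈ Finset.range (2 ^ K - b), w ^ j * s (b + j)‖ +
        ‖∑ j ∈ Finset.range b, w ^ j * s j‖ := by
        rw [norm_mul, norm_mul, norm_mul, norm_s, norm_s, norm_pow, hw, one_pow, one_mul, one_mul,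
          one_mul]
    _ ≤ (2 * (9 / 5) ^ K + 5 / 2 * (9 / 5) ^ K) + 5 / 2 * (9 / 5) ^ K :=
        add_le_add h4 (partial_bound hw K b hb.le)
    _ = 7 * (9 / 5) ^ K := by ring

end Pool.Agent.V1167.TM
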