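import Mathlib
import Pool.Agent.V1167.TM.Sum

/-!
# A uniformly recurrent vector outside the span of the unimodular eigenvectors
-/

namespace Pool.Agent.V1167.TM

open BoundedContinuousFunction

/-- The compatible sequences. -/
def K : Type := {F : ℕ → ℂ // (∀ n, ‖F n‖ ≤ 1) ∧
  ∀ n j k, ‖F (n + j * 2 ^ k) - s j * F n‖ ≤ 4 ^ n * (19 / 20) ^ k}

instance : TopologicalSpace K := inferInstanceAs (TopologicalSpace {F : ℕ → ℂ // (∀ n, ‖F n‖ ≤ 1) ∧
  ∀ n j k, ‖F (n + j * 2 ^ k) - s j * F n‖ ≤ 4 ^ n * (19 / 20) ^ k})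

/-- The coordinates. -/
noncomputable def x (n : ℕ) : K →ᵇ ℂ :=
  BoundedContinuousFunction.ofNormedAddCommGroup (fun F : K => F.1 n)
    ((continuous_apply n).comp continuous_subtype_val) 1 fun F => F.2.1 n

theorem x_apply (n : ℕ) (F : K) : x n F = F.1 n := rfl

/-- The shift. -/
noncomputable def τ (F : K) : K := ⟨fun n => 4⁻¹ * F.1 (n + 1), fun n => by
    rw [norm_mul]
    have := F.2.1 (n + 1)
    norm_num
    linarith [norm_nonneg (F.1 (n + 1))], fun n j k => by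
    have h := F.2.2 (n + 1) j k
    have h1 : (4 : ℂ)⁻¹ * F.1 (n + j * 2 ^ k + 1) - s j * (4⁻¹ * F.1 (n + 1)) =
        4⁻¹ * (F.1 (n + 1 + j * 2 ^ k) - s j * F.1 (n + 1)) := by
      rw [show n + j * 2 ^ k + 1 = n + 1 + j * 2 ^ k by ring]
      ring
    rw [h1, norm_mul]
    rw [pow_succ] at h
    norm_num
    linarith⟩

theorem τ_cont : Continuous τ := by
  refine Continuous.subtype_mk ?_ _
  refine continuous_pi fun n => ?_
  exact continuous_const.mul ((continuous_apply (n + 1)).comp continuous_subtype_val)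

/-- The operator. -/
noncomputable def T0 : (K →ᵇ ℂ) →L[ℂ] (K →ᵇ ℂ) :=
  LinearMap.mkContinuous
    { toFun := fun b => (4 : ℂ) • b.compContinuous ⟨τ, τ_cont⟩
      map_add' := fun a b => by ext F; simp [mul_add]
      map_smul' := fun c a => by ext F; simp; ring } 4 fun b => by
    change ‖(4 : ℂ) • b.compContinuous ⟨τ, τ_cont⟩‖ ≤ _
    rw [norm_smul]
    have h1 : ‖b.compContinuous ⟨τ, τ_cont⟩‖ ≤ ‖b‖ := by
      rw [BoundedContinuousFunction.norm_le (norm_nonneg _)]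
      exact fun F => b.norm_coe_le_norm _
    norm_num
    exact h1

theorem T0_apply (b : K →ᵇ ℂ) (F : K) : T0 b F = 4 * b (τ F) := rfl

theorem T0_x (n : ℕ) : T0 (x n) = x (n + 1) := by
  ext F
  rw [T0_apply, x_apply, x_apply]
  change 4 * (4⁻¹ * F.1 (n + 1)) = _
  ring

/-- The space. -/
noncomputable def Y : Submodule ℂ (K →ᵇ ℂ) := (Submodule.span ℂ (Set.range x)).topologicalClosure

theorem Y_closed : IsClosed (Y : Set (K →ᵇ ℂ)) := Submodule.isClosed_topologicalClosure _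

theorem x_mem (n : ℕ) : x n ∈ Y :=
  Submodule.le_topologicalClosure _ (Submodule.subset_span ⟨n, rfl⟩)

theorem T0_mem {b : K →ᵇ ℂ} (hb : b ∈ Y) : T0 b ∈ Y := by
  have h1 : Submodule.span ℂ (Set.range x) ≤
      (Submodule.span ℂ (Set.range x)).comap (T0 : (K →ᵇ ℂ) →ₗ[ℂ] (K →ᵇ ℂ)) := by
    rw [Submodule.span_le]
    rintro _ ⟨n, rfl⟩
    refine Submodule.subset_span ⟨n + 1, ?_⟩
    exact (T0_x n).symm
  exact map_mem_closure T0.continuous hb fun w hw => h1 hw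

/-- The operator on the space. -/
noncomputable def T : Y →L[ℂ] Y := (T0.comp Y.subtypeL).codRestrict Y fun b => T0_mem b.2

theorem T_coe (b : Y) : ((T b : Y) : K →ᵇ ℂ) = T0 b := rfl

/-- The first vector. -/
noncomputable def x0 (n : ℕ) : Y := ⟨x n, x_mem n⟩

theorem T_pow (n : ℕ) : (T ^ n) (x0 0) = x0 n := by
  induction n with
  | zero => rfl
  | succ n ih =>
    rw [pow_succ']
    change T ((T ^ n) (x0 0)) = _
    rw [ih]
    exact Subtype.ext (T0_x n)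

/-- The return times. -/
theorem return_bound (j k : ℕ) (hj : s j = 1) : ‖x0 (j * 2 ^ k) - x0 0‖ ≤ (19 / 20 : ℝ) ^ k := by
  change ‖x (j * 2 ^ k) - x 0‖ ≤ _
  rw [BoundedContinuousFunction.norm_le (by positivity)]
  intro F
  have h := F.2.2 0 j k
  rw [zero_add, hj, one_mul, pow_zero, one_mul] at h
  exact h

theorem x0_recurrent (ε : ℝ) (hε : 0 < ε) : ∃ m : ℕ, ∀ k : ℕ,
    ∃ n : ℕ, k < n ∧ n ≤ k + m ∧ ‖(T ^ n) (x0 0) - x0 0‖ < ε := by
  obtain ⟨l, hl⟩ := exists_pow_lt_of_lt_one hε (by norm_num : (19 / 20 : ℝ) < 1)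
  refine ⟨3 * 2 ^ l, fun k => ?_⟩
  obtain ⟨i, hi1, hi2⟩ : ∃ i, k < i * 2 ^ l ∧ i * 2 ^ l ≤ k + 2 ^ l := by
    refine ⟨k / 2 ^ l + 1, ?_, ?_⟩
    · have := Nat.lt_div_mul_add (a := k) (b := 2 ^ l) (by positivity)
      rw [add_mul, one_mul]
      exact this
    · rw [add_mul, one_mul]
      have := Nat.div_mul_le_self k (2 ^ l)
      omega
  obtain ⟨j, hj1, hj2, hj3⟩ : ∃ j, i ≤ j ∧ j ≤ i + 2 ∧ s j = 1 := by
    rcases exists_one i with h | h | h
    · exact ⟨i, le_rfl, by omega, h⟩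
    · exact ⟨i + 1, by omega, by omega, h⟩
    · exact ⟨i + 2, by omega, by omega, h⟩
  refine ⟨j * 2 ^ l, ?_, ?_, ?_⟩
  · exact lt_of_lt_of_le hi1 (Nat.mul_le_mul_right _ hj1)
  · have h1 : j * 2 ^ l ≤ (i + 2) * 2 ^ l := Nat.mul_le_mul_right _ hj2
    have h2 : (i + 2) * 2 ^ l = i * 2 ^ l + 2 * 2 ^ l := by ring
    omega
  · rw [T_pow]
    exact lt_of_le_of_lt (return_bound j l hj3) hl

/-- The Thue-Morse functional. -/
noncomputable def F0 : K := ⟨s, fun n => (norm_s n).le, fun n j k => by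
    by_cases hn : n < 2 ^ k
    · rw [add_comm, s_mul k j n hn, sub_self, norm_zero]
      positivity
    · push Not at hn
      have h1 : ‖s (n + j * 2 ^ k) - s j * s n‖ ≤ 2 := by
        refine (norm_sub_le _ _).trans ?_
        rw [norm_mul, norm_s, norm_s, norm_s]
        norm_num
      refine h1.trans ?_
      have h2 : k + 1 ≤ n := (Nat.lt_two_pow_self (n := k)).trans_le hn
      calc (2 : ℝ) ≤ 4 * 1 ^ k := by norm_num
        _ ≤ 4 * (4 * (19 / 20)) ^ k := by gcongr; norm_num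
        _ = 4 ^ (k + 1) * (19 / 20) ^ k := by rw [mul_pow]; ring
        _ ≤ 4 ^ n * (19 / 20) ^ k := by gcongr; norm_num⟩

/-- The averages. -/
noncomputable def avg (w : ℂ) (k n : ℕ) : ℂ :=
  (2 ^ k)⁻¹ * ∑ j ∈ Finset.range (2 ^ k), w ^ j * s (n + j)

/-- The bound. -/
noncomputable def δ (k : ℕ) : ℝ := 14 * (9 / 10) ^ k * (20 / 19) ^ (k + 1)

theorem δ_pos (k : ℕ) : 0 < δ k := by unfold δ; positivity

theorem avg_bound {w : ℂ} (hw : ‖w‖ = 1) (k n : ℕ) : ‖avg w k n‖ ≤ 7 * (9 / 10) ^ k := by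
  unfold avg
  rw [norm_mul, norm_inv, norm_pow]
  have h1 := interval_bound hw k n
  calc (‖(2 : ℂ)‖ ^ k)⁻¹ * ‖∑ j ∈ Finset.range (2 ^ k), w ^ j * s (n + j)‖
      ≤ (‖(2 : ℂ)‖ ^ k)⁻¹ * (7 * (9 / 5) ^ k) := by gcongr
    _ = 7 * (9 / 10) ^ k := by
        rw [show ‖(2 : ℂ)‖ = 2 by norm_num, ← inv_pow,
          show (2 : ℝ)⁻¹ ^ k * (7 * (9 / 5) ^ k) = 7 * (2⁻¹ ^ k * (9 / 5) ^ k) by ring, ← mul_pow]
        norm_num

/-- The averages are compatible sequences, up to a small factor. -/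
noncomputable def G (w : ℂ) (hw : ‖w‖ = 1) (l : ℕ) : K :=
  ⟨fun n => ((δ l)⁻¹ : ℝ) * avg w l n, fun n => by
    rw [norm_mul, Complex.norm_real, Real.norm_of_nonneg (inv_nonneg.2 (δ_pos l).le),
      inv_mul_le_iff₀ (δ_pos l), mul_one]
    refine (avg_bound hw l n).trans ?_
    unfold δ
    have h1 : (1 : ℝ) ≤ (20 / 19) ^ (l + 1) := one_le_pow₀ (by norm_num)
    have h2 : (0 : ℝ) < (9 / 10) ^ l := by positivity
    nlinarith, fun n j k => by
    have h0 : (((δ l)⁻¹ : ℝ) : ℂ) * avg w l (n + j * 2 ^ k) -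
        s j * ((((δ l)⁻¹ : ℝ) : ℂ) * avg w l n) =
        (((δ l)⁻¹ : ℝ) : ℂ) * (avg w l (n + j * 2 ^ k) - s j * avg w l n) := by ring
    rw [h0, norm_mul, Complex.norm_real, Real.norm_of_nonneg (inv_nonneg.2 (δ_pos l).le),
      inv_mul_le_iff₀ (δ_pos l)]
    by_cases hn : n + 2 ^ l ≤ 2 ^ k
    · have h1 : avg w l (n + j * 2 ^ k) - s j * avg w l n = 0 := by
        unfold avg
        rw [sub_eq_zero, Finset.mul_sum, Finset.mul_sum, Finset.mul_sum]
        refine Finset.sum_congr rfl fun i hi => ?_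
        have hi' := Finset.mem_range.1 hi
        rw [show n + j * 2 ^ k + i = j * 2 ^ k + (n + i) by ring, s_mul k j (n + i) (by omega)]
        ring
      rw [h1, norm_zero]
      have := δ_pos l
      positivity
    · push Not at hn
      have h1 : ‖avg w l (n + j * 2 ^ k) - s j * avg w l n‖ ≤ 14 * (9 / 10) ^ l := by
        refine (norm_sub_le _ _).trans ?_
        rw [norm_mul, norm_s, one_mul]
        have := avg_bound hw l (n + j * 2 ^ k)
        have := avg_bound hw l n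
        linarith
      refine h1.trans ?_
      have h2 : (19 / 20 : ℝ) ^ (l + 1) ≤ 4 ^ n * (19 / 20) ^ k := by
        rcases le_or_gt k (l + 1) with hk | hk
        · calc (19 / 20 : ℝ) ^ (l + 1) ≤ (19 / 20) ^ k :=
                pow_le_pow_of_le_one (by norm_num) (by norm_num) hk
            _ = 1 * (19 / 20) ^ k := (one_mul _).symm
            _ ≤ 4 ^ n * (19 / 20) ^ k := by
                gcongr
                exact one_le_pow₀ (by norm_num)
        · have h3 : k ≤ n := by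
            obtain ⟨k', rfl⟩ : ∃ k', k = k' + 1 := ⟨k - 1, by omega⟩
            have h4 : 2 ^ l ≤ 2 ^ k' := Nat.pow_le_pow_right (by norm_num) (by omega)
            have h5 : k' < 2 ^ k' := Nat.lt_two_pow_self
            rw [pow_succ] at hn
            omega
          calc (19 / 20 : ℝ) ^ (l + 1) ≤ 1 := pow_le_one₀ (by norm_num) (by norm_num)
            _ ≤ (4 * (19 / 20)) ^ k := one_le_pow₀ (by norm_num)
            _ = 4 ^ k * (19 / 20) ^ k := mul_pow _ _ _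
            _ ≤ 4 ^ n * (19 / 20) ^ k := by gcongr; norm_num
      unfold δ
      calc (14 : ℝ) * (9 / 10) ^ l = 14 * (9 / 10) ^ l * ((20 / 19) ^ (l + 1) * (19 / 20) ^ (l + 1)) := by
            rw [← mul_pow]
            norm_num
        _ = 14 * (9 / 10) ^ l * (20 / 19) ^ (l + 1) * (19 / 20) ^ (l + 1) := by ring
        _ ≤ 14 * (9 / 10) ^ l * (20 / 19) ^ (l + 1) * (4 ^ n * (19 / 20) ^ k) := by gcongr⟩

theorem G_apply (w : ℂ) (hw : ‖w‖ = 1) (l n : ℕ) :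
    (G w hw l).1 n = ((δ l)⁻¹ : ℝ) * avg w l n := rfl

theorem τ_iter (j n : ℕ) (F : K) : (τ^[j] F).1 n = (4⁻¹) ^ j * F.1 (n + j) := by
  induction j generalizing n with
  | zero => simp
  | succ j ih =>
    rw [Function.iterate_succ_apply']
    change 4⁻¹ * (τ^[j] F).1 (n + 1) = _
    rw [ih, pow_succ, show n + 1 + j = n + (j + 1) by ring]
    ring

/-- The value at the averages. -/
theorem G_eval (w : ℂ) (hw : ‖w‖ = 1) (l : ℕ) {b : K →ᵇ ℂ} (hb : b ∈ Y) :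
    b (G w hw l) = ((δ l)⁻¹ : ℝ) * ((2 ^ l)⁻¹ *
      ∑ j ∈ Finset.range (2 ^ l), w ^ j * (4 ^ j * b (τ^[j] F0))) := by
  obtain ⟨L, hL⟩ : ∃ L : (K →ᵇ ℂ) →L[ℂ] ℂ, ∀ b : K →ᵇ ℂ, L b = b (G w hw l) -
      ((δ l)⁻¹ : ℝ) * ((2 ^ l)⁻¹ *
      ∑ j ∈ Finset.range (2 ^ l), w ^ j * (4 ^ j * b (τ^[j] F0))) := by
    refine ⟨evalCLM ℂ (G w hw l) - (((δ l)⁻¹ : ℝ) : ℂ) • ((2 ^ l : ℂ)⁻¹ •
      ∑ j ∈ Finset.range (2 ^ l), (w ^ j * 4 ^ j) • evalCLM ℂ (τ^[j] F0)), fun b => ?_⟩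
    simp [Finset.mul_sum, mul_assoc]
  have h1 : Y ≤ LinearMap.ker (L : (K →ᵇ ℂ) →ₗ[ℂ] ℂ) := by
    refine Submodule.topologicalClosure_minimal _ ?_ (ContinuousLinearMap.isClosed_ker L)
    rw [Submodule.span_le]
    rintro _ ⟨n, rfl⟩
    rw [SetLike.mem_coe, LinearMap.mem_ker]
    change L (x n) = 0
    rw [hL, x_apply, G_apply, avg, sub_eq_zero]
    congr 2
    refine Finset.sum_congr rfl fun j _ => ?_
    rw [x_apply, τ_iter, ← mul_assoc (4 ^ j : ℂ), ← mul_pow]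
    norm_num
    exact Or.inl rfl
  have h2 : L b = 0 := h1 hb
  rwa [hL, sub_eq_zero] at h2

/-- Unimodular eigenvectors vanish at the Thue-Morse sequence. -/
theorem eig_zero {c : ℂ} (hc : ‖c‖ = 1) {b : Y} (hb : T b = c • b) : (b : K →ᵇ ℂ) F0 = 0 := by
  have hc0 : c ≠ 0 := by
    intro h
    rw [h, norm_zero] at hc
    exact zero_ne_one hc
  have h1 : ∀ F : K, 4 * (b : K →ᵇ ℂ) (τ F) = c * (b : K →ᵇ ℂ) F := by
    intro F
    have h2 := congrArg (fun v : Y => (v : K →ᵇ ℂ) F) hb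
    exact h2
  have h2 : ∀ j : ℕ, 4 ^ j * (b : K →ᵇ ℂ) (τ^[j] F0) = c ^ j * (b : K →ᵇ ℂ) F0 := by
    intro j
    induction j with
    | zero => simp
    | succ j ih =>
      rw [Function.iterate_succ_apply', pow_succ, pow_succ, mul_assoc, h1, ← mul_assoc,
        mul_comm (4 ^ j : ℂ) c, mul_assoc, ih]
      ring
  have hci : ‖c⁻¹‖ = 1 := by rw [norm_inv, hc, inv_one]
  have h3 : ∀ l, ‖(b : K →ᵇ ℂ) F0‖ ≤ δ l * ‖(b : K →ᵇ ℂ)‖ := by
    intro l
    have h4 := G_eval c⁻¹ hci l b.2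
    have h5 : ∀ j, (c⁻¹) ^ j * (4 ^ j * (b : K →ᵇ ℂ) (τ^[j] F0)) = (b : K →ᵇ ℂ) F0 := by
      intro j
      rw [h2, ← mul_assoc, ← mul_pow, inv_mul_cancel₀ hc0, one_pow, one_mul]
    simp only [h5] at h4
    rw [Finset.sum_const, Finset.card_range, nsmul_eq_mul, ← mul_assoc ((2 ^ l : ℂ)⁻¹)] at h4
    push_cast at h4
    rw [inv_mul_cancel₀ (pow_ne_zero _ two_ne_zero), one_mul] at h4
    have h6 := (b : K →ᵇ ℂ).norm_coe_le_norm (G c⁻¹ hci l)
    rw [h4, norm_mul, norm_inv, Complex.norm_real, Real.norm_of_nonneg (δ_pos l).le,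
      inv_mul_le_iff₀ (δ_pos l)] at h6
    exact h6
  have h4 : Filter.Tendsto (fun l => δ l * ‖(b : K →ᵇ ℂ)‖) Filter.atTop (nhds 0) := by
    have h5 : (fun l => δ l * ‖(b : K →ᵇ ℂ)‖) =
        fun l : ℕ => (18 / 19 : ℝ) ^ l * (14 * (20 / 19) * ‖(b : K →ᵇ ℂ)‖) := by
      funext l
      unfold δ
      rw [pow_succ, show (18 / 19 : ℝ) = 9 / 10 * (20 / 19) by norm_num, mul_pow]
      ring
    rw [h5]
    have h6 := (tendsto_pow_atTop_nhds_zero_of_lt_one (r := (18 / 19 : ℝ)) (by norm_num)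
      (by norm_num)).mul_const (14 * (20 / 19) * ‖(b : K →ᵇ ℂ)‖)
    rwa [zero_mul] at h6
  have h5 : ‖(b : K →ᵇ ℂ) F0‖ ≤ 0 := ge_of_tendsto' h4 h3
  exact norm_le_zero_iff.1 h5

theorem main : ¬ (∀ (X : Type) [NormedAddCommGroup X] [NormedSpace ℂ X] [CompleteSpace X]
      (T : X →L[ℂ] X),
      closure ((Submodule.span ℂ {x : X | ∃ c : ℂ, ‖c‖ = 1 ∧ T x = c • x} : Submodule ℂ X) : Set X)
        = closure {x : X | ∀ ε : ℝ, 0 < ε → ∃ m : ℕ, ∀ k : ℕ,
            ∃ n : ℕ, k < n ∧ n ≤ k + m ∧ ‖(T ^ n) x - x‖ < ε}) := by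
  intro h
  have : CompleteSpace Y := Y_closed.completeSpace_coe
  have h1 := h Y T
  have h2 : x0 0 ∈ closure ((Submodule.span ℂ {x : Y | ∃ c : ℂ, ‖c‖ = 1 ∧ T x = c • x} :
      Submodule ℂ Y) : Set Y) := by
    rw [h1]
    exact subset_closure x0_recurrent
  obtain ⟨L, hL⟩ : ∃ L : Y →L[ℂ] ℂ, ∀ b : Y, L b = (b : K →ᵇ ℂ) F0 :=
    ⟨(evalCLM ℂ F0).comp Y.subtypeL, fun b => rfl⟩
  have h3 : (Submodule.span ℂ {x : Y | ∃ c : ℂ, ‖c‖ = 1 ∧ T x = c • x}) ≤
      LinearMap.ker (L : Y →ₗ[ℂ] ℂ) := by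
    rw [Submodule.span_le]
    rintro b ⟨c, hc, hb⟩
    rw [SetLike.mem_coe, LinearMap.mem_ker]
    change L b = 0
    rw [hL]
    exact eig_zero hc hb
  have h4 : x0 0 ∈ LinearMap.ker (L : Y →ₗ[ℂ] ℂ) :=
    closure_minimal h3 (ContinuousLinearMap.isClosed_ker L) h2
  have h5 : L (x0 0) = 0 := h4
  rw [hL] at h5
  have h6 : s 0 = 0 := h5
  rw [s_zero] at h6
  exact one_ne_zero h6

end Pool.Agent.V1167.TM
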